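import Pool.Agent.MP_670f9a_nt.H13.Spec

/-!
The final statement from the inductive statement.
-/

namespace Pool.Agent.MP_670f9a_nt.H95

open Polynomial Pool.Agent.MP_670f9a_nt.H13 IntermediateField

/-- Extension of an embedding to a simple algebraic extension. -/
theorem ext_emb {k : Type} [Field k] [Algebra k ℂ] (τ : k →+* ℂ) (β b : ℂ) (hβ : IsIntegral k β)
    (hb : (minpoly k β).eval₂ τ b = 0) :
    ∃ σ : k⟮β⟯ →+* ℂ, σ (AdjoinSimple.gen k β) = b ∧ ∀ x : k, σ (algebraMap k _ x) = τ x := by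
  refine ⟨(AdjoinRoot.lift τ b hb).comp
    (adjoinRootEquivAdjoin k hβ).symm.toRingEquiv.toRingHom, ?_, fun x => ?_⟩
  · show AdjoinRoot.lift τ b hb ((adjoinRootEquivAdjoin k hβ).symm _) = b
    rw [adjoinRootEquivAdjoin_symm_apply_gen, AdjoinRoot.lift_root]
  · show AdjoinRoot.lift τ b hb ((adjoinRootEquivAdjoin k hβ).symm _) = τ x
    rw [AlgEquiv.commutes, AdjoinRoot.algebraMap_eq, AdjoinRoot.lift_of]

/-- Embeddings of the field of two generators. -/
theorem pair_emb (α β b : ℂ) (τ : ℚ⟮α⟯ →+* ℂ) (hβ : IsIntegral ℚ⟮α⟯ β)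
    (hb : (minpoly ℚ⟮α⟯ β).eval₂ τ b = 0) :
    ∃ σ : ℚ⟮α, β⟯ →+* ℂ, σ ⟨α, subset_adjoin ℚ _ (Or.inl rfl)⟩ = τ (AdjoinSimple.gen ℚ α) ∧
      σ ⟨β, subset_adjoin ℚ _ (Or.inr rfl)⟩ = b := by
  obtain ⟨σ, h1, h2⟩ := ext_emb τ β b hβ hb
  have hm : ∀ x : ℚ⟮α, β⟯, (algebraMap ℚ⟮α, β⟯ ℂ) x ∈ ℚ⟮α⟯⟮β⟯ := fun x => by
    exact (adjoin_simple_adjoin_simple ℚ α β).ge x.2
  refine ⟨σ.comp ((algebraMap ℚ⟮α, β⟯ ℂ).codRestrict ℚ⟮α⟯⟮β⟯ hm), ?_, ?_⟩
  · exact h2 (AdjoinSimple.gen ℚ α)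
  · exact h1

/-- The reflection of an irreducible polynomial. -/
theorem irr_reflect {K : Type} [Field K] (P : K[X]) (hm : P.Monic) (hi : Irreducible P)
    (h0 : P.coeff 0 ≠ 0) :
    Irreducible (reflect P.natDegree P) ∧ (reflect P.natDegree P).natDegree = P.natDegree := by
  have hd : (reflect P.natDegree P).natDegree = P.natDegree := by
    refine le_antisymm (natDegree_reflect_le.trans (max_self _).le) (le_natDegree_of_ne_zero ?_)
    rw [coeff_reflect, revAt_le le_rfl, Nat.sub_self]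
    exact h0
  have hc : (reflect P.natDegree P).coeff 0 = 1 := by
    rw [coeff_reflect, revAt_zero]
    exact hm.coeff_natDegree
  have key : ∀ a : K[X], a.coeff 0 ≠ 0 → IsUnit (reflect a.natDegree a) → IsUnit a := by
    intro a ha hu
    obtain ⟨u, hu1, hu2⟩ := Polynomial.isUnit_iff.1 hu
    have h1 : a = C u * X ^ a.natDegree := by
      rw [← reflect_C, hu2, reflect_reflect]
    by_cases hn : a.natDegree = 0
    · rw [h1, hn, pow_zero, mul_one]
      exact isUnit_C.2 hu1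
    · exfalso
      apply ha
      rw [h1, coeff_C_mul, coeff_X_pow, if_neg (Ne.symm hn), mul_zero]
  refine ⟨⟨fun hu => ?_, fun a b hab => ?_⟩, hd⟩
  · have h1 := natDegree_eq_zero_of_isUnit hu
    have h2 := hi.natDegree_pos
    omega
  · have h1 : a.coeff 0 * b.coeff 0 = 1 := by rw [← mul_coeff_zero, ← hab, hc]
    have ha : a.coeff 0 ≠ 0 := left_ne_zero_of_mul_eq_one h1
    have hb : b.coeff 0 ≠ 0 := right_ne_zero_of_mul_eq_one h1
    have ha0 : a ≠ 0 := fun h => ha (by rw [h, coeff_zero])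
    have hb0 : b ≠ 0 := fun h => hb (by rw [h, coeff_zero])
    have h2 : a.natDegree + b.natDegree = P.natDegree := by
      rw [← natDegree_mul ha0 hb0, ← hab, hd]
    have h3 : P = reflect a.natDegree a * reflect b.natDegree b := by
      rw [← reflect_mul a b le_rfl le_rfl, h2, ← hab, reflect_reflect]
    exact (hi.isUnit_or_isUnit h3).imp (key a ha) (key b hb)

theorem num1 (L d m : ℕ) (hL : 1 ≤ L) (hd : 1 ≤ d)
    (h : 10 ^ 11 * (L * d * Real.log (2 * L * d)) ≤ (m : ℝ)) :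
    6 * L ≤ m ∧
      6 * L * (3 * Real.log m + 2 * m * (1 / 10 ^ 8 / (L : ℝ))) < m * Real.log 2 := by
  have hL' : (1 : ℝ) ≤ L := by exact_mod_cast hL
  have hd' : (1 : ℝ) ≤ d := by exact_mod_cast hd
  have h2 : (0.69 : ℝ) < Real.log 2 := by linarith [Real.log_two_gt_d9]
  have h3 : Real.log (2 * L) ≤ Real.log (2 * L * d) :=
    Real.log_le_log (by positivity) (by nlinarith)
  have h4 : Real.log 2 ≤ Real.log (2 * L) := Real.log_le_log (by positivity) (by linarith)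
  have h5 : (L : ℝ) * Real.log (2 * L) ≤ L * d * Real.log (2 * L * d) :=
    mul_le_mul (by nlinarith) h3 (by linarith) (by positivity)
  have h6 : 10 ^ 11 * ((L : ℝ) * Real.log (2 * L)) ≤ m := by nlinarith
  have h7 : (L : ℝ) * 0.69 ≤ L * Real.log (2 * L) := by nlinarith
  have hm : (0 : ℝ) < m := by nlinarith
  refine ⟨by exact_mod_cast (by nlinarith : (6 : ℝ) * L ≤ m), ?_⟩
  have h8 : Real.log m ≤ Real.log (1000 * L) + m / (1000 * L) := by
    have h9 := Real.log_le_sub_one_of_pos (show (0 : ℝ) < m / (1000 * L) by positivity)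
    rw [Real.log_div hm.ne' (by positivity)] at h9
    linarith
  have h10 : Real.log (1000 * L) ≤ 10 * Real.log (2 * L) := by
    have h11 : Real.log (1000 * L) ≤ Real.log (2 ^ 9 * (2 * L)) :=
      Real.log_le_log (by positivity) (by nlinarith)
    rw [Real.log_mul (x := 2 ^ 9) (by positivity) (by positivity), Real.log_pow] at h11
    push_cast at h11
    linarith
  have h12 : (L : ℝ) * Real.log m ≤ 10 * (L * Real.log (2 * L)) + m / 1000 := by
    have h13 : (L : ℝ) * (m / (1000 * L)) = m / 1000 := by field_simp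
    nlinarith
  have h14 : (L : ℝ) * (m * (1 / 10 ^ 8 / (L : ℝ))) = m / 10 ^ 8 := by field_simp
  nlinarith

theorem smain (hI : SInd) (hN : SInt) : SMain := by
  intro α β L d F hα hβ hα0 hβ0 hind hL hF hroot hw hd hm
  by_contra hcon
  simp only [not_exists, not_or, not_le] at hcon
  have hαQ : IsIntegral ℚ α := hα.tower_top
  have hβK : IsIntegral ℚ⟮α⟯ β := hβ.tower_top
  set P := minpoly ℚ⟮α⟯ β with hP
  set A := minpoly ℤ α with hA
  have hAQ : minpoly ℚ α = A.map (algebraMap ℤ ℚ) :=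
    minpoly.isIntegrallyClosed_eq_field_fractions' ℚ hα
  have hAm : A.Monic := minpoly.monic hα
  have hAi : Irreducible A := minpoly.irreducible hα
  have hAα : aeval α A = 0 := minpoly.aeval ℤ α
  rw [hAQ, hAm.natDegree_map] at hm
  have hPm : P.Monic := minpoly.monic hβK
  have hPi : Irreducible P := minpoly.irreducible hβK
  have hP0 : P.coeff 0 ≠ 0 := minpoly.coeff_zero_ne_zero hβK hβ0
  have hd1 : 1 ≤ d := hd ▸ hPi.natDegree_pos
  obtain ⟨hn1, hn2⟩ := num1 L d A.natDegree hL hd1 hm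
  have hLp : (0 : ℝ) < L := by exact_mod_cast hL
  have hdp : (0 : ℝ) < d := by exact_mod_cast hd1
  let φ : ℤ[X] →+* ℚ⟮α⟯ := eval₂RingHom (Int.castRingHom _) (AdjoinSimple.gen ℚ α)
  have hτφ : ∀ (τ : ℚ⟮α⟯ →+* ℂ) (g : ℤ[X]), τ (φ g) = ev (τ (AdjoinSimple.gen ℚ α)) g := by
    intro τ g
    simp only [φ, ev, coe_eval₂RingHom]
    rw [hom_eval₂, RingHom.eq_intCast' (τ.comp _)]
  have hev : ∀ (x : ℂ) (g : ℤ[X]), ev x g = aeval x g := by
    intro x g
    simp only [ev, coe_eval₂RingHom, aeval_def, RingHom.eq_intCast' (algebraMap ℤ ℂ)]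
  have hψφ : ∀ g : ℤ[X], algebraMap ℚ⟮α⟯ ℂ (φ g) = ev α g := hτφ (algebraMap ℚ⟮α⟯ ℂ)
  have hcomp : ∀ τ : ℚ⟮α⟯ →+* ℂ, τ.comp φ = ev (τ (AdjoinSimple.gen ℚ α)) := fun τ =>
    RingHom.ext (hτφ τ)
  -- weights
  have hw' : ∀ j, F.coeff j ≠ 0 → (F.coeff j).natDegree * d + j * L ≤ L * d := fun j hj =>
    hw _ j (leadingCoeff_ne_zero.2 hj)
  have hFd : F.natDegree ≤ d := by
    have h1 := hw' F.natDegree (leadingCoeff_ne_zero.2 hF)
    by_contra h2
    have h3 : (d + 1) * L ≤ F.natDegree * L := Nat.mul_le_mul_right _ (by omega)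
    nlinarith
  have hFL : ∀ j, (F.coeff j).natDegree ≤ L := fun j => by
    by_cases hj : F.coeff j = 0
    · rw [hj, natDegree_zero]; omega
    · have h1 := hw' j hj
      exact Nat.le_of_mul_le_mul_right (by omega) hd1
  have hFK : F.map φ ≠ 0 := by
    intro h0
    have h1 : φ F.leadingCoeff = 0 := by
      rw [leadingCoeff, ← coeff_map, h0, coeff_zero]
    have h2 : aeval α F.leadingCoeff = 0 := by rw [← hev, ← hψφ, h1, map_zero]
    have h3 := natDegree_le_of_dvd (minpoly.isIntegrallyClosed_dvd hα h2)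
      (leadingCoeff_ne_zero.2 hF)
    have h4 := hFL F.natDegree
    rw [coeff_natDegree] at h4
    rw [← hA] at h3
    omega
  have hdvd : P ∣ F.map φ := by
    refine minpoly.dvd _ _ ?_
    rw [aeval_def, eval₂_map, hcomp, ← eval_map]
    exact hroot
  have hFKd : (F.map φ).natDegree = d :=
    le_antisymm (natDegree_map_le.trans hFd) (hd ▸ natDegree_le_of_dvd hdvd hFK)
  have hFP := eq_leadingCoeff_mul_of_monic_of_dvd_of_natDegree_le hPm hdvd (by rw [hFKd, hd])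
  have hlc : (F.map φ).leadingCoeff = φ (F.coeff d) := by rw [leadingCoeff, hFKd, coeff_map]
  have hFd0 : F.coeff d ≠ 0 := fun h0 => by
    rw [h0, map_zero] at hlc
    exact hFK (leadingCoeff_eq_zero.1 hlc)
  have hq0 : (F.coeff d).natDegree = 0 := by
    have h1 := hw' d hFd0
    by_contra h2
    have h3 : 1 * d ≤ (F.coeff d).natDegree * d := Nat.mul_le_mul_right _ (by omega)
    nlinarith
  obtain ⟨q, hq⟩ := natDegree_eq_zero.1 hq0
  have hqne : q ≠ 0 := fun h0 => hFd0 (by rw [← hq, h0, map_zero])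
  have hφq : φ (C q) = (q : ℚ⟮α⟯) := by simp [φ]
  rw [hlc, ← hq, hφq] at hFP
  have hqK : (q : ℚ⟮α⟯) ≠ 0 := Int.cast_ne_zero.2 hqne
  -- embeddings
  have hτ : ∀ a : ℂ, aeval a A = 0 → ∃ τ : ℚ⟮α⟯ →+* ℂ, τ (AdjoinSimple.gen ℚ α) = a := by
    intro a ha
    obtain ⟨τ, h1, -⟩ := ext_emb (algebraMap ℚ ℂ) α a hαQ (by
      rw [hAQ, ← aeval_def, aeval_map_algebraMap]; exact ha)
    exact ⟨τ, h1⟩
  have hrt : ∀ τ : ℚ⟮α⟯ →+* ℂ, ∃ b : ℂ, b ≠ 0 ∧ P.eval₂ τ b = 0 := by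
    intro τ
    obtain ⟨b, hb⟩ := IsAlgClosed.exists_root (P.map τ) (by
      rw [degree_map]; exact (degree_pos_of_irreducible hPi).ne')
    rw [IsRoot, eval_map] at hb
    refine ⟨b, fun h0 => ?_, hb⟩
    rw [h0, eval₂_at_zero] at hb
    exact hP0 (τ.injective (by rw [hb, map_zero]))
  have hra : ∀ a : ℂ, aeval a A = 0 → ‖a‖ ≤ Real.exp (1 / 10 ^ 8 / (L : ℝ)) := by
    intro a ha
    obtain ⟨τ, h1⟩ := hτ a ha
    obtain ⟨b, -, hb⟩ := hrt τ
    obtain ⟨σ, h2, -⟩ := pair_emb α β b τ hβK hb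
    have h3 := (hcon σ).1
    rw [h2, h1] at h3
    exact (Real.le_exp_log _).trans (Real.exp_le_exp.2 h3.le)
  have hr1 : (1 : ℝ) ≤ Real.exp (1 / 10 ^ 8 / (L : ℝ)) := Real.one_le_exp (by positivity)
  have hρ1 : (1 : ℝ) ≤ Real.exp (1 / 10 ^ 8 / (d : ℝ)) := Real.one_le_exp (by positivity)
  -- divisibility by the top coefficient
  have hdiv : ∀ j, C q ∣ F.coeff j := by
    intro j
    refine hN A (F.coeff j) A.natDegree L _ q α hAm hAi rfl (by omega) hr1 hra hAα hqne hL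
      (by omega) (hFL j) ?_ (by rw [Real.log_exp]; exact hn2)
    have h1 : IsIntegral ℤ (P.coeff j) :=
      isIntegral_coeff_of_dvd (minpoly ℤ β) P (minpoly.monic hβ) hPm
        (minpoly.dvd _ _ (by rw [aeval_map_algebraMap]; exact minpoly.aeval ℤ β)) j
    have h2 : φ (F.coeff j) = q * P.coeff j := by rw [← coeff_map, hFP, coeff_C_mul]
    have h3 : aeval α (F.coeff j) / (q : ℂ) = algebraMap ℚ⟮α⟯ ℂ (P.coeff j) := by
      rw [← hev, ← hψφ, h2, map_mul, map_intCast,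
        mul_div_cancel_left₀ _ (Int.cast_ne_zero.2 hqne)]
    rw [h3]
    exact h1.algebraMap
  obtain ⟨F', hF'⟩ := (C_dvd_iff_dvd_coeff (C q) F).2 hdiv
  have hc' : ∀ j, F.coeff j = C q * F'.coeff j := fun j => by rw [hF', coeff_C_mul]
  have hCq : (C q : ℤ[X]) ≠ 0 := C_ne_zero.2 hqne
  have hF'P : F'.map φ = P := by
    rw [hF', Polynomial.map_mul, map_C, hφq] at hFP
    exact mul_left_cancel₀ (C_ne_zero.2 hqK) hFP
  have hF'd : F'.natDegree ≤ d := by
    rw [hF', natDegree_C_mul hCq] at hFd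
    exact hFd
  have hG0 : (reflect d F').coeff 0 = 1 := by
    rw [coeff_reflect, revAt_zero]
    refine mul_left_cancel₀ hCq ?_
    rw [← hc', mul_one, hq]
  have hGd : (reflect d F').natDegree ≤ d := natDegree_reflect_le.trans (max_le le_rfl hF'd)
  have hGw : Wt L d (reflect d F') := by
    intro j
    by_cases hj : (reflect d F').coeff j = 0
    · rw [hj, natDegree_zero]; omega
    · have hjd : j ≤ d := (le_natDegree_of_ne_zero hj).trans hGd
      rw [coeff_reflect, revAt_le hjd] at hj ⊢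
      have h1 := hw' (d - j) (by rw [hc']; exact mul_ne_zero hCq hj)
      rw [hc', natDegree_C_mul hqne] at h1
      obtain ⟨e, rfl⟩ := Nat.exists_eq_add_of_le hjd
      rw [Nat.add_sub_cancel_left] at h1 ⊢
      nlinarith
  have hGφ : (reflect d F').map φ = reflect P.natDegree P := by
    rw [← reflect_map, hF'P, hd]
  obtain ⟨hirr, hdeg⟩ := irr_reflect P hPm hPi hP0
  have hGev : ∀ (τ : ℚ⟮α⟯ →+* ℂ) (b : ℂ), b ≠ 0 →
      ((((reflect d F').map (ev (τ (AdjoinSimple.gen ℚ α)))).eval b⁻¹ = 0) ↔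
        P.eval₂ τ b = 0) := by
    intro τ b hb
    let _ : Invertible b := invertibleOfNonzero hb
    rw [← hcomp, ← Polynomial.map_map, hGφ, eval_map, ← invOf_eq_inv]
    exact eval₂_reflect_eq_zero_iff τ b _ P le_rfl
  have hρ : ∀ a z : ℂ, aeval a A = 0 → ((reflect d F').map (ev a)).eval z = 0 →
      1 ≤ Real.exp (1 / 10 ^ 8 / (d : ℝ)) * ‖z‖ := by
    intro a z ha hz
    obtain ⟨τ, h1⟩ := hτ a ha
    have hz0 : z ≠ 0 := fun h0 => by
      rw [h0, ← coeff_zero_eq_eval_zero, coeff_map, hG0, map_one] at hz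
      exact one_ne_zero hz
    have h2 := (hGev τ z⁻¹ (inv_ne_zero hz0)).1 (by rw [inv_inv, h1]; exact hz)
    obtain ⟨σ, -, h3⟩ := pair_emb α β z⁻¹ τ hβK h2
    have h4 := (hcon σ).2
    rw [h3] at h4
    have h5 := (Real.le_exp_log _).trans (Real.exp_le_exp.2 h4.le)
    have h6 : ‖z⁻¹‖ * ‖z‖ = 1 := by rw [← norm_mul, inv_mul_cancel₀ hz0, norm_one]
    exact h6.ge.trans (mul_le_mul_of_nonneg_right h5 (norm_nonneg _))
  -- a conjugate outside the unit disc
  have : FiniteDimensional ℚ ℚ⟮α⟯ := adjoin.finiteDimensional hαQ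
  have : NumberField ℚ⟮α⟯ := ⟨⟩
  have hbig : ∃ τ : ℚ⟮α⟯ →+* ℂ, 1 < ‖τ (AdjoinSimple.gen ℚ α)‖ := by
    by_contra h1
    simp only [not_exists, not_lt] at h1
    obtain ⟨n, hn, h2⟩ := NumberField.Embeddings.pow_eq_one_of_norm_le_one ℚ⟮α⟯ ℂ
      (x := AdjoinSimple.gen ℚ α) (fun h0 => hα0 (congrArg Subtype.val h0))
      ((isIntegral_algebraMap_iff (algebraMap ℚ⟮α⟯ ℂ).injective).1 hα) h1
    have h3 : α ^ n = 1 := by
      have h4 := congrArg (algebraMap ℚ⟮α⟯ ℂ) h2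
      rwa [map_pow, map_one] at h4
    have h5 := (hind n 0 (by rw [zpow_zero, mul_one, zpow_natCast, h3])).1
    omega
  obtain ⟨τ, hτ1⟩ := hbig
  obtain ⟨b, hb0, hb⟩ := hrt τ
  have hAτ : aeval (τ (AdjoinSimple.gen ℚ α)) A = 0 := by
    have h1 : φ A = 0 := (algebraMap ℚ⟮α⟯ ℂ).injective (by rw [hψφ, hev, hAα, map_zero])
    rw [← hev, ← hτφ, h1, map_zero]
  obtain ⟨u, v, huv, h1⟩ := hI ℚ⟮α⟯ φ (algebraMap ℚ⟮α⟯ ℂ) α A L _ hAm hAi hAα hψφ hL hr1 hra
    (by rw [Real.log_exp]; exact le_of_eq (by field_simp)) d (reflect d F') _ hG0 hGd hGw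
    (hGφ ▸ hirr) (by rw [hGφ, hdeg, hd]) hρ1 hρ
    (by rw [Real.log_exp]; exact le_of_eq (by field_simp)) hm _ b⁻¹ hτ1
    ((hGev τ b hb0).2 hb) hAτ
  obtain ⟨σ, h2, h3⟩ := pair_emb α β b τ hβK hb
  rw [← h2, ← h3, inv_zpow', ← map_zpow₀, ← map_zpow₀, ← map_mul, ← map_one σ] at h1
  have h4 := congrArg (algebraMap ℚ⟮α, β⟯ ℂ) (σ.injective h1)
  rw [map_mul, map_zpow₀, map_zpow₀, map_one] at h4
  have h5 := hind u (-v) h4
  omega

end Pool.Agent.MP_670f9a_nt.H95
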